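import Pool.Agent.helper91.RB.Spec1

set_option autoImplicit false

namespace Pool.Agent.RB

open NumberField NumberField.InfinitePlace NumberField.Units NumberField.Units.dirichletUnitTheorem
open MeasureTheory Filter Topology Module
open scoped nonZeroDivisors Real Classical

theorem FJE_prod (K : Type) [Field K] [NumberField K] (a : InfinitePlace K → ℝ) (y : ℝ) (hy : 0 < y)
    (ha : ∀ v, 0 < a v) (h1 : ∏ v : InfinitePlace K, a v ^ v.mult = 1) :
    ∏ v : InfinitePlace K, (1 / y * a v) ^ (-(v.mult : ℝ) / 2) = y ^ ((finrank ℚ K : ℝ) / 2) := by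
  have e1 : ∀ v : InfinitePlace K, (1 / y * a v) ^ (-(v.mult : ℝ) / 2)
      = y ^ ((v.mult : ℝ) / 2) * (a v ^ v.mult) ^ (-(1 / 2 : ℝ)) := by
    intro v
    have hy' : (0 : ℝ) < 1 / y := by positivity
    rw [Real.mul_rpow hy'.le (ha v).le]
    congr 1
    · rw [one_div, Real.inv_rpow hy.le, ← Real.rpow_neg hy.le]
      congr 1
      ring
    · rw [← Real.rpow_natCast (a v) v.mult, ← Real.rpow_mul (ha v).le]
      congr 1
      ring
  rw [Finset.prod_congr rfl (fun v _ => e1 v), Finset.prod_mul_distrib]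
  have e2 : ∏ v : InfinitePlace K, (a v ^ v.mult) ^ (-(1 / 2 : ℝ)) = 1 := by
    rw [Real.finsetProd_rpow _ _ (fun v _ => (pow_pos (ha v) _).le), h1, Real.one_rpow]
  rw [e2, mul_one, ← Real.rpow_sum_of_pos hy]
  congr 1
  rw [← Finset.sum_div, ← Nat.cast_sum, sum_mult_eq]

theorem FJE (hTHI : THI_stmt) (hTHU : THU_stmt) (hTAU : TAU_stmt) (hFDX : FDX_stmt) : FJE_stmt := by
  intro K _ _ J hJ y hy
  obtain ⟨hpos, hadd, hneg, hunit, hprod, -⟩ := hTAU K
  obtain ⟨-, -, -, -, -, hrefl, -⟩ := hFDX K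
  set c : ℝ := (Real.sqrt |(discr K : ℝ)| * (FractionalIdeal.absNorm J : ℝ))⁻¹ with hc
  set g : logSpace K → ℝ := fun z => th K (du K J : Submodule (𝓞 K) K) (fun v => y * tau K z v) with hg
  have hinv : ∀ (l : unitLattice K) (z : logSpace K), g ((l : logSpace K) + z) = g z := by
    intro l z
    obtain ⟨l, hl⟩ := l
    obtain ⟨u, -, hu⟩ := hl
    have hu' : logEmbedding K u = l := hu
    have e : (fun v => y * tau K (l + z) v)
        = fun v : InfinitePlace K => v (((Additive.toMul u : (𝓞 K)ˣ) : 𝓞 K) : K) ^ 2 * (y * tau K z v) := by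
      funext v
      rw [hadd, ← hu', show u = Additive.ofMul (Additive.toMul u) from rfl, hunit]
      simp only [toMul_ofMul]
      ring
    show th K (du K J : Submodule (𝓞 K) K) (fun v => y * tau K (l + z) v) = _
    rw [e, hTHU K (du K J) (Additive.toMul u)]
  have hstep : ∀ z : logSpace K, th K (J : Submodule (𝓞 K) K) (fun v => 1 / y * tau K z v)
      = c * y ^ ((finrank ℚ K : ℝ) / 2) * g (-z) := by
    intro z
    have ht : ∀ v : InfinitePlace K, 0 < 1 / y * tau K z v := by
      intro v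
      have := hpos z v
      positivity
    rw [(hTHI K J hJ _ ht).2, FJE_prod K (tau K z) y hy (hpos z) (hprod z)]
    congr 1
    rw [hg]
    simp only
    congr 1
    funext v
    rw [hneg, mul_inv, one_div, inv_inv]
  unfold fJ
  rw [integral_congr_ae (Filter.Eventually.of_forall hstep), integral_const_mul, hrefl g hinv]

end Pool.Agent.RB
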